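import Pool.Agent.H21.L.R_pool_sql_team_seeded_9f66d723.W5h26.ML.Law
import Pool.Agent.H21.L.R_seed8.TH942.ES.NF

/-!
# The logarithmic mean laws for elliptic curves over number fields
-/

set_option autoImplicit false

open MeasureTheory Filter Topology Set Complex NumberField IsDedekindDomain
open scoped ENNReal
open Pool.Agent.TH942.ES
open Pool.Agent.TH270.MS
open Pool.Agent.H921R2.TatePole (nm two_le_nm)

namespace Pool.Agent.W5h26.ML

variable {K : Type} [Field K] [NumberField K] {a b : 𝓞 K}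

/-- the norms of the good primes -/
noncomputable abbrev NC (a b : 𝓞 K) : {v // GoodV a b v} → ℕ := fun v => nm v.1

theorem curve_hreal (a b : 𝓞 K) (v : {v // GoodV a b v}) (k : ℕ) :
    (∑ i, zv (NC a b) (alV a b) v i ^ k).im = 0 := by
  have h1 : zv (NC a b) (alV a b) v 1 = (starRingEnd ℂ) (zv (NC a b) (alV a b) v 0) := by
    unfold zv alV
    rw [rt_conj, map_div₀, Complex.conj_ofReal]
  rw [Fin.sum_univ_two, h1, ← map_pow, Complex.add_im, Complex.conj_im]
  ring

/-- the finite product `∏_{N v ≤ x} #E(k_v) / N v` over the good primes -/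
noncomputable def PC (a b : 𝓞 K) (x : ℝ) : ℝ :=
  ∏ᶠ (v : HeightOneSpectrum (𝓞 K)) (_ : GoodV a b v ∧ (nm v : ℝ) ≤ x), ((ptsV a b v : ℝ) + 1) / nm v

theorem log_PC (a b : 𝓞 K) (x : ℝ) : Real.log (PC a b x) = LP (NC a b) (alV a b) x := by
  classical
  have E := curve_sys a b
  have hfin := E.fin_le x
  have hS : {v : HeightOneSpectrum (𝓞 K) | GoodV a b v ∧ (nm v : ℝ) ≤ x} =
      Subtype.val '' {v : {v // GoodV a b v} | (NC a b v : ℝ) ≤ x} := by
    ext v
    constructor
    · rintro ⟨h1, h2⟩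
      exact ⟨⟨v, h1⟩, h2, rfl⟩
    · rintro ⟨w, h1, rfl⟩
      exact ⟨w.2, h1⟩
  have hSf : {v : HeightOneSpectrum (𝓞 K) | GoodV a b v ∧ (nm v : ℝ) ≤ x}.Finite := by
    rw [hS]
    exact hfin.image _
  have e1 : PC a b x = ∏ v ∈ hSf.toFinset, (((ptsV a b v : ℝ) + 1) / nm v) :=
    finprod_mem_eq_finite_toFinset_prod
      (fun v : HeightOneSpectrum (𝓞 K) => ((ptsV a b v : ℝ) + 1) / nm v) hSf
  have e2 : hSf.toFinset = hfin.toFinset.map ⟨Subtype.val, Subtype.val_injective⟩ := by
    ext v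
    simp only [Set.Finite.mem_toFinset, Finset.mem_map, Function.Embedding.coeFn_mk]
    rw [hS]
    rfl
  rw [e1, e2, Finset.prod_map, Real.log_prod, lp_eq E]
  · refine Finset.sum_congr rfl fun v _ => ?_
    rw [curve_cv v]
    rfl
  · intro v _
    have h1 : (0 : ℝ) < nm v.1 := by
      have := two_le_nm v.1
      exact_mod_cast (by omega : 0 < nm v.1)
    simp only [Function.Embedding.coeFn_mk]
    positivity

/-- the incomplete `L`-series continues to `F` -/
theorem curve_mh {F : ℂ → ℂ} (hF1 : ∀ s : ℂ, 1 < s.re → DifferentiableAt ℂ F s)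
    (hF2 : AnalyticAt ℂ F 1)
    (hF3 : ∀ s : ℂ, 3 / 2 < s.re → HasProd (fun v : {v // GoodV a b v} => efV a b v.1 s) (F s)) :
    Mh (NC a b) (alV a b) (fun s => F (1 + s)) 0 where
  E := curve_sys a b
  hreal := curve_hreal a b
  hG := fun s hs => by
    have h1 : DifferentiableAt ℂ F (1 + s) := hF1 _ (by
      rw [Complex.add_re, Complex.one_re]
      linarith)
    exact h1.comp (f := fun s : ℂ => 1 + s) s (by fun_prop)
  h0 := by
    have h1 : AnalyticAt ℂ (fun z : ℂ => 1 + z) 0 := by fun_prop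
    exact AnalyticAt.comp (f := fun z : ℂ => 1 + z) (by simpa using hF2) h1
  hL := fun s hs => by
    have h1 := hF3 (1 + s) (by
      rw [Complex.add_re, Complex.one_re]
      linarith)
    rw [pow_zero, one_mul]
    unfold Pool.Agent.TH942.ES.LE
    rw [← h1.tprod_eq]
    refine tprod_congr fun v => ?_
    exact (curve_factor v s).symm

theorem curve_mc {F : ℂ → ℂ} {η C₀ : ℝ} {κ : ℕ} (hη : 0 < η)
    (hF1 : ∀ s : ℂ, 1 - η < s.re → DifferentiableAt ℂ F s)
    (hg : ∀ s : ℂ, 1 - η < s.re → ‖F s‖ ≤ C₀ * (1 + ‖s‖) ^ κ)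
    (hF3 : ∀ s : ℂ, 3 / 2 < s.re → HasProd (fun v : {v // GoodV a b v} => efV a b v.1 s) (F s)) :
    Mc (NC a b) (alV a b) (fun s => F (1 + s)) (fun s => F (1 + s)) 0 κ η (|C₀| * 2 ^ κ) where
  E := curve_sys a b
  hreal := curve_hreal a b
  hη := hη
  hG := fun s hs => by
    have h1 : DifferentiableAt ℂ F (1 + s) := hF1 _ (by
      rw [Complex.add_re, Complex.one_re]
      linarith)
    exact h1.comp (f := fun s : ℂ => 1 + s) s (by fun_prop)
  hgrow := fun s hs => by
    refine (hg (1 + s) (by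
      rw [Complex.add_re, Complex.one_re]
      linarith)).trans ?_
    have h1 : 1 + ‖1 + s‖ ≤ 2 * (1 + ‖s‖) := by
      have := norm_add_le (1 : ℂ) s
      rw [norm_one] at this
      have := norm_nonneg s
      linarith
    calc C₀ * (1 + ‖1 + s‖) ^ κ ≤ |C₀| * (2 * (1 + ‖s‖)) ^ κ := by
          gcongr
          exact le_abs_self C₀
      _ = _ := by
          rw [mul_pow]
          ring
  hΨ := fun s _ _ => by rw [pow_zero, one_mul]
  hL := fun s hs => by
    have h1 := hF3 (1 + s) (by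
      rw [Complex.add_re, Complex.one_re]
      linarith)
    unfold Pool.Agent.TH942.ES.LE
    rw [← h1.tprod_eq]
    refine tprod_congr fun v => ?_
    exact (curve_factor v s).symm

/-- the order after the shift -/
theorem order_shift {F : ℂ → ℂ} (hF : AnalyticAt ℂ F 1) (n : ℕ) :
    analyticOrderAt (fun s => F (1 + s)) 0 = n ↔ analyticOrderAt F 1 = n := by
  have ht : Tendsto (fun z : ℂ => 1 + z) (𝓝 0) (𝓝 1) := by
    have : Continuous fun z : ℂ => 1 + z := by fun_prop
    simpa using this.tendsto 0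
  have ht' : Tendsto (fun z : ℂ => z - 1) (𝓝 1) (𝓝 0) := by
    have : Continuous fun z : ℂ => z - 1 := by fun_prop
    simpa using this.tendsto 1
  have hF0 : AnalyticAt ℂ (fun s => F (1 + s)) 0 := by
    have h1 : AnalyticAt ℂ (fun z : ℂ => 1 + z) 0 := by fun_prop
    exact AnalyticAt.comp (f := fun z : ℂ => 1 + z) (by simpa using hF) h1
  rw [hF0.analyticOrderAt_eq_natCast, hF.analyticOrderAt_eq_natCast]
  constructor
  · rintro ⟨g, hg, hg0, he⟩
    refine ⟨fun z => g (z - 1), ?_, by simpa using hg0, ?_⟩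
    · have h1 : AnalyticAt ℂ (fun z : ℂ => z - 1) 1 := by fun_prop
      exact AnalyticAt.comp (f := fun z : ℂ => z - 1) (by simpa using hg) h1
    · filter_upwards [ht'.eventually he] with z hz
      have : (1 : ℂ) + (z - 1) = z := by ring
      rw [this] at hz
      simpa using hz
  · rintro ⟨g, hg, hg0, he⟩
    refine ⟨fun z => g (1 + z), ?_, by simpa using hg0, ?_⟩
    · have h1 : AnalyticAt ℂ (fun z : ℂ => 1 + z) 0 := by fun_prop
      exact AnalyticAt.comp (f := fun z : ℂ => 1 + z) (by simpa using hg) h1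
    · filter_upwards [ht.eventually he] with z hz
      simpa using hz

end Pool.Agent.W5h26.ML
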