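import Pool.Agent.H21.L.R_pool_sql_team_seeded_9f66d723.W5h26.ML.One
import Pool.Agent.H21.L.R_seed8.TH270.MS.Tail
import Pool.Agent.H21.L.R_seed8.TH270.MS.BM

/-!
# The products over the primes and over the prime powers of a general system of primes

For a system of primes (`Pool.Agent.TH942.ES.Sys`) let `LP(Y) = ∑_{N v ≤ Y} log(factor at the centre)`, and let
`Pl(Y)` be the sum over the prime powers. Then `LP + Pl` is bounded: only the bound `σ ∑ log N v (N v)^{-1-σ} ≤ C`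
is used, and no theorem of Rankin–Selberg type.
-/

set_option autoImplicit false

open MeasureTheory Filter Topology Set
open Pool.Agent.TH942.ES
open Pool.Agent.TH942.SL
open Pool.Agent.TH270.MS
open Pool.Agent.TH270.RS (cS' dat' DD_neg)

namespace Pool.Agent.W5h26.ML

variable {X : Type} {d : ℕ} {N : X → ℕ} {α : X → Fin d → ℂ}

/-- the logarithm of the inverse partial Euler product at the centre, over the primes `N v ≤ Y` -/
noncomputable def LP (N : X → ℕ) (α : X → Fin d → ℂ) (Y : ℝ) : ℝ :=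
  ∑ᶠ (v : X) (_ : (N v : ℝ) ≤ Y), cv N α v

theorem lp_eq (E : Sys N α) (Y : ℝ) : LP N α Y = ∑ v ∈ (E.fin_le Y).toFinset, cv N α v :=
  finsum_mem_eq_finite_toFinset_sum (fun v : X => cv N α v) (E.fin_le Y)

/-- `∑_{√Y < N v ≤ Y} 1 / N v` is bounded -/
theorem recip_bdd (E : Sys N α) : ∃ M : ℝ, ∀ Y : ℝ, 1 ≤ Y →
    ∑ v ∈ (E.fin_le Y).toFinset.filter (fun v => √Y < N v), 1 / (N v : ℝ) ≤ M := by
  obtain ⟨C, σ₀, hσ₀, hC⟩ := E.log_sum
  set Y₁ : ℝ := max (Real.exp 1) (Real.exp (2 / σ₀)) with hY₁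
  refine ⟨max (∑ v ∈ (E.fin_le Y₁).toFinset, 1 / (N v : ℝ)) (2 * Real.exp 1 * |C|),
    fun Y hY => ?_⟩
  have hnn : ∀ v : X, 0 ≤ 1 / (N v : ℝ) := fun v => by positivity
  rcases le_or_gt Y Y₁ with h | h
  · refine le_trans ?_ (le_max_left _ _)
    refine Finset.sum_le_sum_of_subset_of_nonneg (fun v hv => ?_) fun v _ _ => hnn v
    rw [Finset.mem_filter, Set.Finite.mem_toFinset] at hv
    rw [Set.Finite.mem_toFinset]
    exact hv.1.trans h
  · refine le_trans ?_ (le_max_right _ _)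
    have hY0 : 0 < Y := by linarith
    have h1 : Real.exp 1 < Y := (le_max_left _ _).trans_lt h
    have h2 : Real.exp (2 / σ₀) < Y := (le_max_right _ _).trans_lt h
    have hl1 : 1 < Real.log Y := by rwa [Real.lt_log_iff_exp_lt hY0]
    have hl2 : 2 / σ₀ < Real.log Y := by rwa [Real.lt_log_iff_exp_lt hY0]
    set σ : ℝ := 1 / Real.log Y with hσ
    have hσ0 : 0 < σ := by positivity
    have hσ1 : σ < σ₀ := by
      rw [hσ, div_lt_iff₀ (by linarith)]
      rw [div_lt_iff₀ hσ₀] at hl2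
      linarith
    obtain ⟨hs, hle⟩ := hC σ hσ0 hσ1
    have key : ∀ v : X, v ∈ (E.fin_le Y).toFinset.filter (fun v => √Y < N v) →
        1 / (N v : ℝ) ≤ 2 * Real.exp 1 * σ * (Real.log (N v) * (N v : ℝ) ^ (-(1 + σ))) := by
      intro v hv
      rw [Finset.mem_filter, Set.Finite.mem_toFinset] at hv
      obtain ⟨h3, h4⟩ := hv
      have h3' : (N v : ℝ) ≤ Y := h3
      have hN := E.Npos v
      have h5 : Real.log Y / 2 ≤ Real.log (N v) := by
        have h6 : Real.log √Y ≤ Real.log (N v) :=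
          Real.log_le_log (Real.sqrt_pos.2 hY0) h4.le
        rwa [Real.log_sqrt hY0.le] at h6
      have h6 : Real.exp (-1) ≤ (N v : ℝ) ^ (-σ) := by
        rw [Real.rpow_def_of_pos hN]
        apply Real.exp_le_exp.2
        have h7 : Real.log (N v) ≤ Real.log Y := Real.log_le_log hN h3'
        have h8 : Real.log (N v) * σ ≤ 1 := by
          rw [hσ, mul_one_div, div_le_one (by linarith)]
          exact h7
        linarith
      have h7 : (N v : ℝ) ^ (-(1 + σ)) = 1 / (N v : ℝ) * (N v : ℝ) ^ (-σ) := by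
        rw [show (-(1 + σ) : ℝ) = -1 + -σ by ring, Real.rpow_add hN, Real.rpow_neg_one, one_div]
      rw [h7]
      have h8 : 1 ≤ 2 * σ * Real.log (N v) := by
        rw [hσ]
        have : 2 * (1 / Real.log Y) * (Real.log Y / 2) = 1 := by field_simp
        calc (1 : ℝ) = 2 * (1 / Real.log Y) * (Real.log Y / 2) := this.symm
          _ ≤ _ := mul_le_mul_of_nonneg_left h5 (by positivity)
      have h9 : 1 ≤ Real.exp 1 * (N v : ℝ) ^ (-σ) := by
        calc (1 : ℝ) = Real.exp 1 * Real.exp (-1) := by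
              rw [← Real.exp_add]
              norm_num
          _ ≤ _ := mul_le_mul_of_nonneg_left h6 (Real.exp_pos _).le
      calc 1 / (N v : ℝ) = 1 * 1 * (1 / (N v : ℝ)) := by ring
        _ ≤ (2 * σ * Real.log (N v)) * (Real.exp 1 * (N v : ℝ) ^ (-σ)) * (1 / (N v : ℝ)) := by
            gcongr
        _ = _ := by ring
    refine (Finset.sum_le_sum key).trans ?_
    rw [← Finset.mul_sum]
    have h3 : ∑ v ∈ (E.fin_le Y).toFinset.filter (fun v => √Y < N v),
        Real.log (N v) * (N v : ℝ) ^ (-(1 + σ)) ≤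
        ∑' v, Real.log (N v) * (N v : ℝ) ^ (-(1 + σ)) :=
      hs.sum_le_tsum _ fun v _ => by
        have := E.logN v
        positivity
    calc 2 * Real.exp 1 * σ * _ ≤ 2 * Real.exp 1 * σ *
          ∑' v, Real.log (N v) * (N v : ℝ) ^ (-(1 + σ)) := by gcongr
      _ = 2 * Real.exp 1 * (σ * ∑' v, Real.log (N v) * (N v : ℝ) ^ (-(1 + σ))) := by ring
      _ ≤ 2 * Real.exp 1 * |C| := by
          have := hle.trans (le_abs_self C)
          gcongr

/-- **primes against prime powers** -/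
theorem lp_pl (E : Sys N α) : ∃ M : ℝ, ∀ Y : ℝ, 1 ≤ Y → |LP N α Y + Pl N α Y| ≤ M := by
  classical
  obtain ⟨M, hM⟩ := recip_bdd E
  obtain ⟨C, hC⟩ := sharp_tail E
  refine ⟨|C| + d * M, fun Y hY => ?_⟩
  have h1 := hC Y hY
  set S : ℝ := ∑ᶠ (v : X) (_ : √Y < N v ∧ (N v : ℝ) ≤ Y), cP N α (v, 1) with hS
  have hB : {v : X | √Y < N v ∧ (N v : ℝ) ≤ Y}.Finite := (E.fin_le Y).subset fun v hv => hv.2
  have h2 : |S| ≤ d * M := by
    have e1 : S = ∑ v ∈ hB.toFinset, cP N α (v, 1) :=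
      finsum_mem_eq_finite_toFinset_sum (fun v : X => cP N α (v, 1)) hB
    have e2 : hB.toFinset = (E.fin_le Y).toFinset.filter (fun v => √Y < N v) := by
      ext v
      rw [Finset.mem_filter, Set.Finite.mem_toFinset, Set.Finite.mem_toFinset]
      exact ⟨fun h => ⟨h.2, h.1⟩, fun h => ⟨h.2, h.1⟩⟩
    rw [e1, e2]
    refine (Finset.abs_sum_le_sum_abs _ _).trans ?_
    calc _ ≤ ∑ v ∈ (E.fin_le Y).toFinset.filter (fun v => √Y < N v), d * (1 / (N v : ℝ)) := by
          refine Finset.sum_le_sum fun v _ => ?_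
          have h3 := E.cP_abs (v, 1)
          have h4 : (1 / √(N v : ℝ)) ^ (1 + 1) = 1 / (N v : ℝ) := by
            rw [div_pow, one_pow, show 1 + 1 = 2 from rfl, Real.sq_sqrt (E.Npos v).le]
          simp only [h4] at h3
          exact h3
      _ ≤ d * M := by
          rw [← Finset.mul_sum]
          exact mul_le_mul_of_nonneg_left (hM Y hY) (Nat.cast_nonneg d)
  have h3 : C * Y ^ (-(1 / 12 : ℝ)) ≤ |C| := by
    have h4 : Y ^ (-(1 / 12 : ℝ)) ≤ 1 := Real.rpow_le_one_of_one_le_of_nonpos hY (by norm_num)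
    have h5 : 0 ≤ Y ^ (-(1 / 12 : ℝ)) := by positivity
    calc C * Y ^ (-(1 / 12 : ℝ)) ≤ |C| * Y ^ (-(1 / 12 : ℝ)) :=
          mul_le_mul_of_nonneg_right (le_abs_self C) h5
      _ ≤ |C| * 1 := mul_le_mul_of_nonneg_left h4 (abs_nonneg C)
      _ = _ := mul_one _
  have h4 : LP N α Y + Pl N α Y = (LP N α Y + Pl N α Y + S) - S := by ring
  rw [h4]
  refine (abs_sub _ _).trans ?_
  have h5 : |LP N α Y + Pl N α Y + S| ≤ C * Y ^ (-(1 / 12 : ℝ)) := h1
  linarith

theorem lp_floor {Y : ℝ} (hY : 0 ≤ Y) : LP N α Y = LP N α (⌊Y⌋₊ : ℝ) := by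
  unfold LP
  refine finsum_congr fun v => ?_
  have : ((N v : ℝ) ≤ Y) = ((N v : ℝ) ≤ (⌊Y⌋₊ : ℝ)) := by
    rw [← Nat.le_floor_iff hY]
    simp only [Nat.cast_le]
  simp only [this]

theorem lp_bm (E : Sys N α) : BM (LP N α) := by
  refine ⟨?_, fun Y => ⟨∑ v ∈ (E.fin_le Y).toFinset, |cv N α v|, fun y _ h2 => ?_⟩⟩
  · have h1 : Measurable fun Y : ℝ => LP N α (⌊Y⌋₊ : ℝ) := by
      have h2 : Measurable fun n : ℕ => LP N α (n : ℝ) := measurable_from_top
      exact h2.comp Nat.measurable_floor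
    refine (h1.aestronglyMeasurable (μ := volume.restrict (Ioi (Real.exp 1)))).congr ?_
    filter_upwards [ae_restrict_mem measurableSet_Ioi] with y hy
    exact (lp_floor ((Real.exp_pos 1).trans hy).le).symm
  · rw [lp_eq E]
    refine (Finset.abs_sum_le_sum_abs _ _).trans ?_
    refine Finset.sum_le_sum_of_subset_of_nonneg (fun v hv => ?_) fun _ _ _ => abs_nonneg _
    rw [Set.Finite.mem_toFinset] at hv ⊢
    exact le_trans (show (N v : ℝ) ≤ y from hv) h2

/-- `Pl` is measurable and locally bounded -/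
theorem pl_bm (E : Sys N α) : BM (Pl N α) := by
  have := E.cnt
  obtain ⟨e, he⟩ := Countable.exists_injective_nat (X × ℕ)
  obtain ⟨M, hM⟩ := lp_pl E
  refine (lp_bm E).neg.of_close (M := M) ?_ fun y hy => ?_
  · have h1 : Measurable fun Y : ℝ => -Sh (lamS N e) (cS' N α e) (Real.log Y) :=
      ((sh_meas (dat' E he)).comp Real.measurable_log).neg
    refine (h1.aestronglyMeasurable (μ := volume.restrict (Ioi (Real.exp 1)))).congr ?_
    filter_upwards [ae_restrict_mem measurableSet_Ioi] with Y hY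
    have h0 : 0 < Y := (Real.exp_pos 1).trans hY
    rw [sh_eq E he, Real.exp_log h0, neg_neg]
  · have h1 : -LP N α y - Pl N α y = -(LP N α y + Pl N α y) := by ring
    rw [h1, abs_neg]
    exact hM y (by linarith [Real.add_one_le_exp 1])

/-- maxima -/
theorem bm_pos {f : ℝ → ℝ} (hf : BM f) : BM fun y => max (f y) 0 := by
  refine ⟨hf.1.sup aestronglyMeasurable_const, fun Y => ?_⟩
  obtain ⟨M, hM⟩ := hf.2 Y
  refine ⟨|M|, fun y h1 h2 => ?_⟩
  rw [abs_of_nonneg (le_max_right _ _)]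
  exact max_le ((le_abs_self _).trans ((hM y h1 h2).trans (le_abs_self M))) (abs_nonneg M)

/-- positive parts of functions which differ by a bounded function -/
theorem pmean_of {f g : ℝ → ℝ} (hf : BM f) (hg : BM g) {M : ℝ}
    (h : ∀ y : ℝ, Real.exp 1 ≤ y → |f y - g y| ≤ M)
    (hb : ∃ B : ℝ, ∀ᶠ Y : ℝ in atTop, ∫ y in Real.exp 1..Y, max (f y) 0 / y ≤ B * Real.log Y) :
    ∃ B : ℝ, ∀ᶠ Y : ℝ in atTop, ∫ y in Real.exp 1..Y, max (g y) 0 / y ≤ B * Real.log Y := by
  have e : ∀ f : ℝ → ℝ, ∀ y : ℝ, |max (f y) 0| = max (f y) 0 := fun f y =>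
    abs_of_nonneg (le_max_right _ _)
  have h1 := bmean_of (f := fun y => max (f y) 0) (g := fun y => max (g y) 0) (bm_pos hf).li
    (bm_pos hg).li (M := M) (fun y hy => (abs_max_sub_max_le_abs _ _ _).trans (h y hy))
    (by simpa only [e] using hb)
  simpa only [e] using h1

/-- the logarithmic mean law, one- and two-sided -/
def Law (f : ℝ → ℝ) : Prop :=
  ∃ B : ℝ, ∀ᶠ Y : ℝ in atTop, ∫ y in Real.exp 1..Y, f y / y ≤ B * Real.log Y

theorem law_mono {f g : ℝ → ℝ} (hf : LI f) (hg : LI g) (hle : ∀ y : ℝ, Real.exp 1 ≤ y → f y ≤ g y)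
    (h : Law g) : Law f := by
  obtain ⟨B, hB⟩ := h
  refine ⟨B, ?_⟩
  filter_upwards [hB, eventually_ge_atTop (Real.exp 1)] with Y h1 hY
  refine le_trans ?_ h1
  refine intervalIntegral.integral_mono_on hY (hf.div Y hY) (hg.div Y hY) fun y hy => ?_
  have hy0 : 0 < y := (Real.exp_pos 1).trans_le hy.1
  exact div_le_div_of_nonneg_right (hle y hy.1) hy0.le

theorem law_add {f g : ℝ → ℝ} (hf : LI f) (hg : LI g) (h1 : Law f) (h2 : Law g) :
    Law fun y => f y + g y := by
  obtain ⟨B, hB⟩ := h1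
  obtain ⟨B', hB'⟩ := h2
  refine ⟨B + B', ?_⟩
  filter_upwards [hB, hB', eventually_ge_atTop (Real.exp 1)] with Y h1 h2 hY
  simp only [add_div]
  rw [intervalIntegral.integral_add (hf.div Y hY) (hg.div Y hY)]
  linarith

/-- the two-sided law is the conjunction of the one-sided laws -/
theorem law_abs {f : ℝ → ℝ} (hf : BM f) :
    Law (fun y => |f y|) ↔ Law (fun y => max (f y) 0) ∧ Law (fun y => max (-f y) 0) := by
  constructor
  · intro h
    exact ⟨law_mono (bm_pos hf).li hf.li.abs (fun y _ => max_le (le_abs_self _) (abs_nonneg _)) h,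
      law_mono (bm_pos hf.neg).li hf.li.abs (fun y _ => max_le (neg_le_abs _) (abs_nonneg _)) h⟩
  · rintro ⟨h1, h2⟩
    have h3 := law_add (bm_pos hf).li (bm_pos hf.neg).li h1 h2
    refine law_mono hf.li.abs ((bm_pos hf).add (bm_pos hf.neg)).li (fun y _ => ?_) h3
    rcases le_total (f y) 0 with h | h
    · rw [abs_of_nonpos h, max_eq_right h, max_eq_left (by linarith)]
      linarith
    · rw [abs_of_nonneg h, max_eq_left h, max_eq_right (by linarith)]
      linarith

theorem law_iff_of_close {f g : ℝ → ℝ} (hf : BM f) (hg : BM g) {M : ℝ}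
    (h : ∀ y : ℝ, Real.exp 1 ≤ y → |f y - g y| ≤ M) :
    Law (fun y => max (f y) 0) ↔ Law (fun y => max (g y) 0) :=
  ⟨pmean_of hf hg h, pmean_of hg hf fun y hy => by rw [abs_sub_comm]; exact h y hy⟩

end Pool.Agent.W5h26.ML
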